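import Mathlib
import Pool.Agent.Q161.DK.Core

/-!
Two piecewise conjugate classical multivariable systems on a compact metrizable space whose
C*-correspondences are not unitarily equivalent.
-/

set_option autoImplicit false

namespace Pool.Agent.Results.MP_7f766c_an.PiecewiseNotUnitary

/-- Two classical systems `(X, σ)` and `(Y, τ)` with `n` maps are piecewise conjugate: there are a
homeomorphism `γ` and an open cover `V π` indexed by the permutations `π` with
`τ i ∘ γ = γ ∘ σ (π i)` on `V π`. -/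
def PiecewiseConjugate {X Y : Type} [TopologicalSpace X] [TopologicalSpace Y] {n : ℕ}
    (σ : Fin n → C(X, X)) (τ : Fin n → C(Y, Y)) : Prop :=
  ∃ (γ : X ≃ₜ Y) (V : Equiv.Perm (Fin n) → Set X),
    (∀ π, IsOpen (V π)) ∧ (⋃ π, V π) = Set.univ ∧
      ∀ π, ∀ x ∈ V π, ∀ i, τ i (γ x) = γ (σ (π i) x)

/-- The C*-correspondences of the classical systems `(X, σ)` and `(Y, τ)` on compact Hausdorff
spaces are unitarily equivalent. The correspondence of `(X, σ)` is the module of the columns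
`ξ : Fin n → C(X, ℂ)` with inner product `∑ i, ξ i * η i` (first factor conjugated) and left
action `(a • ξ) i = (a ∘ σ i) * ξ i`. -/
def UnitarilyEquivalent {X Y : Type} [TopologicalSpace X] [CompactSpace X] [T2Space X]
    [TopologicalSpace Y] [CompactSpace Y] [T2Space Y] {n : ℕ}
    (σ : Fin n → C(X, X)) (τ : Fin n → C(Y, Y)) : Prop :=
  ∃ (ρ : C(X, ℂ) ≃⋆ₐ[ℂ] C(Y, ℂ)) (U : (Fin n → C(X, ℂ)) →ₗ[ℂ] (Fin n → C(Y, ℂ))),
    Function.Surjective U ∧
    (∀ ξ η : Fin n → C(X, ℂ), ∑ i, star (U ξ i) * U η i = ρ (∑ i, star (ξ i) * η i)) ∧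
    (∀ (a : C(X, ℂ)) (ξ : Fin n → C(X, ℂ)),
      U (fun i => a.comp (σ i) * ξ i) = fun i => (ρ a).comp (τ i) * U ξ i)

theorem result :
    ∃ (X : Type) (_ : TopologicalSpace X) (_ : CompactSpace X) (_ : T2Space X)
      (_ : TopologicalSpace.MetrizableSpace X) (σ τ : Fin 8 → C(X, X)),
      PiecewiseConjugate σ τ ∧ ¬ UnitarilyEquivalent σ τ := by
  refine ⟨Q161.DK.XX, inferInstance, inferInstance, inferInstance, inferInstance,
    fun i => Q161.DK.S (Q161.DK.e8.symm i), fun i => Q161.DK.T (Q161.DK.e8.symm i), ?_, ?_⟩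
  · obtain ⟨γ, V, h1, h2, h3⟩ := Q161.DK.pw
    exact ⟨γ, V, h1, h2, h3⟩
  · exact Q161.DK.not_ue

end Pool.Agent.Results.MP_7f766c_an.PiecewiseNotUnitary
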